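import Pool.Agent.Q161.ESN.Stm2
import Pool.Agent.Q241.ESM.Mn

/-! # Project ESN (helper161), job MN: the number of the elements of `T` (over a number field `F`) -/

set_option autoImplicit false

namespace Pool.Agent.Q68.ESN

open NumberField IsDedekindDomain Finset
open Pool.Agent.Q51.EL (pr Abv N1)
open Pool.Agent.Q161.ESN
open Pool.Agent.Q241.ESM (norm_em side)

/-- the norm of the product of the values of an equivariant function -/
theorem norm_prodF {F K : Type} [Field F] [NumberField F] [Field K] [NumberField K] [Algebra F K]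
    {V : Type} [AddCommGroup V]
    [Fintype V] [DistribMulAction (K ≃ₐ[F] K) V] {ι : Type} [Fintype ι] [DecidableEq ι] {Lf : ι → Type}
    [∀ i, Field (Lf i)] [∀ i, NumberField (Lf i)] {em : (i : ι) → Lf i →+* K} {rp : ι → V}
    (hRp : Rp F Lf em rp)
    (hd : ∀ i, Module.finrank ℚ (Lf i) =
      Module.finrank ℚ F * {t : V | ∃ g : K ≃ₐ[F] K, g • rp i = t}.ncard)
    {z : V → 𝓞 K} (hz : Eqv F z) {y : (i : ι) → 𝓞 (Lf i)}
    (hy : ∀ i, ((z (rp i) : 𝓞 K) : K) = em i (y i : Lf i))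
    {N : 𝓞 F} (hN : ∏ t, z t = iO F K N) :
    ((Ideal.absNorm (Ideal.span {N}) : ℕ) : ℝ) =
      ∏ i, ((Ideal.absNorm (Ideal.span {y i}) : ℕ) : ℝ) := by
  classical
  choose oi hoi1 hoi2 using hRp.orb
  have hfib : ∀ i t, oi t = i ↔ ∃ g : K ≃ₐ[F] K, g • rp i = t := by
    intro i t
    constructor
    · rintro rfl
      exact hoi1 t
    · intro h
      exact (hoi2 t i h).symm
  obtain ⟨e0, he0, hn0⟩ := norm_em (algebraMap F K) (N : F)
  have hF0 : 0 < Module.finrank ℚ F := Module.finrank_pos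
  have hK0 : 0 < Module.finrank ℚ K := Module.finrank_pos
  have he00 : e0 ≠ 0 := by
    rintro rfl
    rw [mul_zero] at he0
    omega
  have h1 : ∏ t, Algebra.norm ℚ ((z t : 𝓞 K) : K) = (Algebra.norm ℚ (N : F)) ^ e0 := by
    rw [← map_prod, ← hn0]
    congr 1
    have h3 := congrArg (fun w : 𝓞 K => (w : K)) hN
    simp only [map_prod] at h3
    rw [h3]
    rfl
  have h4 : ∏ t, Algebra.norm ℚ ((z t : 𝓞 K) : K) =
      (∏ i, Algebra.norm ℚ (y i : Lf i)) ^ e0 := by
    rw [← Finset.prod_fiberwise (s := univ) (g := oi), ← Finset.prod_pow]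
    refine Finset.prod_congr rfl fun i _ => ?_
    obtain ⟨e, he, hn⟩ := norm_em (em i) (y i : Lf i)
    have h5 : ∀ t ∈ univ.filter (fun t => oi t = i), Algebra.norm ℚ ((z t : 𝓞 K) : K) =
        (Algebra.norm ℚ (y i : Lf i)) ^ e := by
      intro t ht
      obtain ⟨g, hg⟩ := (hfib i t).1 (mem_filter.1 ht).2
      have h6 : Algebra.norm ℚ (g (z (rp i) : K)) = Algebra.norm ℚ ((z (rp i) : 𝓞 K) : K) :=
        Algebra.norm_eq_of_algEquiv (g.restrictScalars ℚ) _
      rw [← hg, hz, h6, hy, hn]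
    rw [Finset.prod_congr rfl h5, Finset.prod_const, ← pow_mul]
    congr 1
    have h6 : Module.finrank ℚ F * (univ.filter (fun t => oi t = i)).card =
        Module.finrank ℚ (Lf i) := by
      rw [hd i, ← Set.ncard_coe_finset]
      congr 2
      ext t
      simp only [coe_filter, mem_univ, true_and, Set.mem_ofPred_eq]
      exact hfib i t
    have h7 : Module.finrank ℚ F * ((univ.filter (fun t => oi t = i)).card * e) =
        Module.finrank ℚ F * e0 := by
      rw [← mul_assoc, h6, he, he0]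
    rw [mul_comm]
    exact Nat.eq_of_mul_eq_mul_left hF0 h7
  have h7 : |Algebra.norm ℚ (N : F)| = ∏ i, |Algebra.norm ℚ (y i : Lf i)| := by
    have h8 : |Algebra.norm ℚ (N : F)| ^ e0 = (∏ i, |Algebra.norm ℚ (y i : Lf i)|) ^ e0 := by
      rw [← Finset.abs_prod, ← abs_pow, ← abs_pow, ← h1, h4]
    exact (pow_left_inj₀ (abs_nonneg _) (Finset.prod_nonneg fun i _ => abs_nonneg _) he00).1 h8
  have h9 : ∀ i, |Algebra.norm ℚ (y i : Lf i)| = ((Ideal.absNorm (Ideal.span {y i}) : ℕ) : ℚ) := by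
    intro i
    rw [Ideal.absNorm_span_singleton, ← Algebra.coe_norm_int]
    rw [Nat.cast_natAbs]
    push_cast
    rfl
  have h9F : |Algebra.norm ℚ (N : F)| = ((Ideal.absNorm (Ideal.span {N}) : ℕ) : ℚ) := by
    rw [Ideal.absNorm_span_singleton, ← Algebra.coe_norm_int]
    rw [Nat.cast_natAbs]
    push_cast
    rfl
  rw [Finset.prod_congr rfl fun i _ => h9 i, h9F] at h7
  have h10 : (((Ideal.absNorm (Ideal.span {N}) : ℕ) : ℚ) : ℝ) =
      ((∏ i, ((Ideal.absNorm (Ideal.span {y i}) : ℕ) : ℚ) : ℚ) : ℝ) := by rw [h7]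
  push_cast at h10
  exact h10

theorem mn (hSYS : S_SYS) (hAN : S_AN) (hEVX : S_EVX) : S_MN := by
  classical
  intro F K _ _ _ _ _ _ V _ _ _ hV2 hsemi hinv ι _ _ Lf _ _ em rp hRp B K0 T hB hT hLoc
  obtain ⟨⟨ev, hev⟩, hdeg⟩ := hEVX F K V ι Lf em rp hRp
  obtain ⟨n, bs, s, A, c, κ, C1, hOk, hEx, hC1, hcoord, hInT⟩ :=
    hSYS F K V hV2 hsemi hinv ι Lf em rp hRp ev hev B K0 T hB hT hLoc
  have : Nonempty ι := by
    obtain ⟨i, -, -⟩ := hRp.orb 0
    exact ⟨i⟩
  have hn : ∀ i, n i = Module.finrank ℚ (Lf i) := by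
    intro i
    rw [← RingOfIntegers.rank (Lf i), Module.finrank_eq_card_basis (bs i), Fintype.card_fin]
  have hn1 : ∀ i, 1 ≤ n i := by
    intro i
    rw [hn i]
    exact Module.finrank_pos
  obtain ⟨C, hC, hAN⟩ := hAN ι n s A c κ hOk hEx
  set K1 : ℝ := max K0 1 with hK1def
  have hK1 : 1 ≤ K1 := le_max_right _ _
  set C2 : ℝ := ∏ i, (C1 * K1 + 2) ^ n i with hC2def
  have hC2 : 1 ≤ C2 := by
    rw [hC2def, ← Finset.prod_const_one (s := (univ : Finset ι))]
    refine Finset.prod_le_prod (fun _ _ => by norm_num) fun i _ => ?_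
    refine one_le_pow₀ ?_
    nlinarith
  let T' : Set (Vc n) := {x | ev (fun i => ∑ j, x i j • bs i j) ∈ T}
  have hT' : InT s T' := fun x hx => hInT x hx
  refine ⟨C * C2, by positivity, ?_⟩
  intro X hX
  have hCX : 1 ≤ C2 * X := by nlinarith
  obtain ⟨hfin, hcard⟩ := hAN T' hT' (C2 * X) hCX
  set S' : Set (Vc n) := {x ∈ T' | ∃ H : ι → ℕ, (∀ i, 1 ≤ H i) ∧ (∀ i j, |x i j| ≤ H i) ∧
      ((∏ i, H i ^ n i : ℕ) : ℝ) ≤ C2 * X} with hS'
  have hsub : {z ∈ T | ∃ N : 𝓞 F, ∏ t, z t = iO F K N ∧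
      ((Ideal.absNorm (Ideal.span {N}) : ℕ) : ℝ) ≤ X} ⊆
      (fun x : Vc n => ev (fun i => ∑ j, x i j • bs i j)) '' S' := by
    rintro z ⟨hzT, N, hN, hNX⟩
    obtain ⟨hzE, hzN⟩ := hT z hzT
    obtain ⟨y, hy⟩ := hev.sur z hzE
    have hyz : ∀ i, ((z (rp i) : 𝓞 K) : K) = em i (y i : Lf i) := by
      intro i
      rw [← hy]
      exact hev.val y i
    have hnice : ∀ i, Nice K0 (y i) := by
      intro i
      obtain ⟨α, hα, hαn⟩ := hzN i
      have h1 : α = y i := by
        apply NumberField.RingOfIntegers.ext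
        apply (em i).injective
        rw [hα, hyz]
      rwa [← h1]
    have hrep : (fun i => ∑ j, (fun (i : ι) (j : Fin (n i)) => (bs i).repr (y i) j) i j • bs i j) = y := by
      funext i
      exact (bs i).sum_repr (y i)
    have hM : ∀ i, 1 ≤ Ideal.absNorm (Ideal.span {y i}) := by
      intro i
      refine Nat.one_le_iff_ne_zero.2 ?_
      rw [Ne, Ideal.absNorm_eq_zero_iff, Ideal.span_singleton_eq_bot]
      exact (hnice i).ne
    choose H hH1 hH2 hH3 using fun i => side (hn1 i) hC1 hK1 (hM i)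
    refine ⟨fun i j => (bs i).repr (y i) j, ⟨?_, H, hH1, ?_, ?_⟩, ?_⟩
    · change ev (fun i => ∑ j, (fun (i : ι) (j : Fin (n i)) => (bs i).repr (y i) j) i j • bs i j) ∈ T
      rw [hrep, hy]
      exact hzT
    · intro i j
      have h1 := hcoord i (fun j => (bs i).repr (y i) j)
        ((K1 * (Ideal.absNorm (Ideal.span {y i}) : ℕ)) ^ (1 / (n i : ℝ))) (by
          intro σ
          have h2 : (∑ j, (bs i).repr (y i) j • bs i j) = y i := (bs i).sum_repr (y i)
          rw [h2]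
          have h3 := (hnice i).bal σ
          rw [← hn i] at h3
          have h4 : ‖σ (y i : Lf i)‖ ^ n i ≤ K1 * (Ideal.absNorm (Ideal.span {y i}) : ℕ) :=
            h3.trans (mul_le_mul_of_nonneg_right (le_max_left _ _) (Nat.cast_nonneg _))
          have hd0 : (0 : ℝ) < n i := by exact_mod_cast hn1 i
          calc ‖σ (y i : Lf i)‖ = (‖σ (y i : Lf i)‖ ^ n i) ^ (1 / (n i : ℝ)) := by
                rw [← Real.rpow_natCast, ← Real.rpow_mul (norm_nonneg _), one_div,
                  mul_inv_cancel₀ hd0.ne', Real.rpow_one]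
            _ ≤ _ := Real.rpow_le_rpow (by positivity) h4 (by positivity)) j
      have h2 := h1.trans (hH2 i)
      exact_mod_cast h2
    · push_cast
      calc ∏ i, ((H i : ℝ)) ^ n i
          ≤ ∏ i, ((C1 * K1 + 2) ^ n i * ((Ideal.absNorm (Ideal.span {y i}) : ℕ) : ℝ)) :=
            Finset.prod_le_prod (fun i _ => by positivity) fun i _ => hH3 i
        _ = C2 * ((Ideal.absNorm (Ideal.span {N}) : ℕ) : ℝ) := by
            rw [Finset.prod_mul_distrib, norm_prodF hRp hdeg hzE hyz hN]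
        _ ≤ C2 * X := by gcongr
    · change ev (fun i => ∑ j, (fun (i : ι) (j : Fin (n i)) => (bs i).repr (y i) j) i j • bs i j) = z
      rw [hrep, hy]
  refine ⟨(hfin.image _).subset hsub, ?_⟩
  calc (({z ∈ T | ∃ N : 𝓞 F, ∏ t, z t = iO F K N ∧
      ((Ideal.absNorm (Ideal.span {N}) : ℕ) : ℝ) ≤ X}.ncard : ℕ) : ℝ)
      ≤ (((fun x : Vc n => ev (fun i => ∑ j, x i j • bs i j)) '' S').ncard : ℕ) := by
        exact_mod_cast Set.ncard_le_ncard hsub (hfin.image _)
    _ ≤ (S'.ncard : ℕ) := by exact_mod_cast Set.ncard_image_le hfin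
    _ ≤ C * (C2 * X) := hcard
    _ = C * C2 * X := by ring

end Pool.Agent.Q68.ESN
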