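import Pool.Agent.Q161.ESN.Stm2
import Pool.Agent.Q149.ESM.ZEXa

/-!
# Project ESN (helper161), job N1F: the primes of degree one and the fixed points of the Frobenius elements
-/

set_option autoImplicit false
set_option linter.unusedSectionVars false

namespace Pool.Agent.Q68.ESN

open Polynomial NumberField IsDedekindDomain Finset Pool.Agent.Q161.ESN
open Pool.Agent.Q51.EL (Abv N1)

/-! ## A value outside the prime field -/

theorem ex_c {k V G : Type} [Field k] [Finite k] [Group G] [MulAction G V] {l : ℕ} (hl : l.Prime)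
    [CharP k l] {φ : G} {f : ℕ} (hf : 0 < f) (hk : Nat.card k = l ^ f) (hφ : φ ^ f = 1) {t : V}
    (ht : φ • t ≠ t) : ∃ c : V → k, (∀ s, c (φ • s) = c s ^ l) ∧ c t ^ l ≠ c t := by
  classical
  have hfact : Fact l.Prime := ⟨hl⟩
  have hft := Fintype.ofFinite k
  have hcard : Fintype.card k = l ^ f := by rw [← Nat.card_eq_fintype_card, hk]
  obtain ⟨c, hc⟩ : ∃ c : k → V → k, ∀ a s, c a s = ∑ j ∈ range f, if φ ^ j • t = s then a ^ l ^ j else 0 :=
    ⟨_, fun _ _ => rfl⟩
  have hpow : ∀ a s, c a s ^ l = ∑ j ∈ range f, if φ ^ j • t = s then a ^ l ^ (j + 1) else 0 := by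
    intro a s
    rw [hc, sum_pow_char]
    refine sum_congr rfl fun j _ => ?_
    split_ifs with h
    · rw [← pow_mul, ← pow_succ]
    · rw [zero_pow hl.ne_zero]
  by_contra hno
  push Not at hno
  have hall : ∀ a, c a t ^ l = c a t := by
    intro a
    refine hno (c a) fun s => ?_
    rw [hpow, hc]
    have h1 := sum_range_succ (fun j => if φ ^ j • t = φ • s then a ^ l ^ j else (0 : k)) f
    have h2 := sum_range_succ' (fun j => if φ ^ j • t = φ • s then a ^ l ^ j else (0 : k)) f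
    rw [h2] at h1
    have h3 : a ^ l ^ f = a ^ l ^ 0 := by
      rw [← hcard, FiniteField.pow_card, pow_zero, pow_one]
    rw [hφ, ← pow_zero φ, h3] at h1
    have h4 := add_right_cancel h1
    rw [← h4]
    refine sum_congr rfl fun j _ => ?_
    have h5 : φ ^ (j + 1) • t = φ • s ↔ φ ^ j • t = s := by
      rw [pow_succ', mul_smul]
      exact ⟨fun h => MulAction.injective φ h, fun h => by rw [h]⟩
    simp only [h5]
  obtain ⟨Q, hQ⟩ : ∃ Q : k[X], Q = ∑ j ∈ range f, if φ ^ j • t = t then (X ^ l ^ (j + 1) - X ^ l ^ j : k[X]) else 0 :=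
    ⟨_, rfl⟩
  have hev : ∀ a : k, Q.eval a = 0 := by
    intro a
    have h1 := hall a
    rw [hpow, hc, ← sub_eq_zero, ← sum_sub_distrib] at h1
    rw [hQ, eval_finsetSum, ← h1]
    refine sum_congr rfl fun j _ => ?_
    split_ifs with h
    · simp
    · simp
  have hdeg : Q.natDegree ≤ l ^ (f - 1) := by
    rw [hQ]
    refine natDegree_sum_le_of_forall_le _ _ fun j hj => ?_
    rw [mem_range] at hj
    split_ifs with h
    · have h1 : j + 1 ≠ f := by
        intro h2
        apply ht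
        have h3 : φ ^ (j + 1) • t = t := by rw [h2, hφ, one_smul]
        rw [pow_succ', mul_smul, h] at h3
        exact h3
      have h2 : j + 1 ≤ f - 1 := by omega
      have h3 : l ^ (j + 1) ≤ l ^ (f - 1) := Nat.pow_le_pow_right hl.pos h2
      have h4 : l ^ j ≤ l ^ (f - 1) := Nat.pow_le_pow_right hl.pos (by omega)
      refine (natDegree_sub_le _ _).trans ?_
      rw [natDegree_X_pow, natDegree_X_pow]
      exact max_le h3 h4
    · simp
  have hlt : Q.natDegree < (univ : Finset k).card := by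
    rw [card_univ, hcard]
    refine lt_of_le_of_lt hdeg (Nat.pow_lt_pow_right hl.one_lt (by omega))
  have hz : Q = 0 := eq_zero_of_natDegree_lt_card_of_eval_eq_zero' Q univ (fun a _ => hev a) hlt
  have hco : Q.coeff 1 = -1 := by
    rw [hQ, finsetSum_coeff, sum_eq_single 0]
    · rw [pow_zero, one_smul, if_pos rfl, coeff_sub, coeff_X_pow, coeff_X_pow, zero_add, pow_one,
        pow_zero, if_neg hl.ne_one.symm, if_pos rfl, zero_sub]
    · intro j _ hj
      split_ifs with h
      · have h1 : 1 ≠ l ^ (j + 1) := (Nat.one_lt_pow (by omega) hl.one_lt).ne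
        have h2 : 1 ≠ l ^ j := (Nat.one_lt_pow hj hl.one_lt).ne
        rw [coeff_sub, coeff_X_pow, coeff_X_pow, if_neg h1, if_neg h2, sub_zero]
      · rw [coeff_zero]
    · intro h
      exact absurd (mem_range.2 hf) h
  rw [hz, coeff_zero] at hco
  exact one_ne_zero (neg_eq_zero.1 hco.symm)

/-! ## The primes below -/

section

variable {F : Type} [Field F] [NumberField F] {K : Type} [Field K] [NumberField K] [Algebra F K]
  {L : Type} [Field L] [NumberField L]

/-- The homomorphism `x ↦ g (em x)` modulo `w`. -/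
noncomputable def ph (em : L →+* K) (w : HeightOneSpectrum (𝓞 K)) (g : K ≃ₐ[F] K) :
    𝓞 L →+* 𝓞 K ⧸ w.asIdeal :=
  (Ideal.Quotient.mk w.asIdeal).comp
    ((RingOfIntegers.mapRingHom (g : K →+* K)).comp (RingOfIntegers.mapRingHom em))

theorem ph_mk (em : L →+* K) (w : HeightOneSpectrum (𝓞 K)) (g : K ≃ₐ[F] K) (x : 𝓞 L) (z : 𝓞 K)
    (h : (z : K) = g (em (x : L))) : ph em w g x = Ideal.Quotient.mk w.asIdeal z := by
  have h1 : z = RingOfIntegers.mapRingHom (g : K →+* K) (RingOfIntegers.mapRingHom em x) := by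
    apply RingOfIntegers.ext
    rw [h]
    rfl
  rw [h1]
  rfl

/-- The prime below. -/
noncomputable def pb (em : L →+* K) (w : HeightOneSpectrum (𝓞 K)) {l : ℕ} (hl : l.Prime) (hw : Abv w l)
    (g : K ≃ₐ[F] K) : HeightOneSpectrum (𝓞 L) where
  asIdeal := RingHom.ker (ph em w g)
  isPrime := by
    have := w.isPrime
    exact RingHom.ker_isPrime _
  ne_bot := by
    intro h
    have h1 : (l : 𝓞 L) ∈ RingHom.ker (ph em w g) := by
      rw [RingHom.mem_ker, map_natCast]
      have h2 : ((l : ℕ) : 𝓞 K ⧸ w.asIdeal) = Ideal.Quotient.mk w.asIdeal (l : 𝓞 K) := (map_natCast _ l).symm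
      rw [h2, Ideal.Quotient.eq_zero_iff_mem]
      exact hw
    rw [h, Ideal.mem_bot] at h1
    exact hl.ne_zero (Nat.cast_eq_zero.1 h1)

theorem mem_pb (em : L →+* K) (w : HeightOneSpectrum (𝓞 K)) {l : ℕ} (hl : l.Prime) (hw : Abv w l)
    (g : K ≃ₐ[F] K) (x : 𝓞 L) : x ∈ (pb em w hl hw g).asIdeal ↔ ph em w g x = 0 :=
  RingHom.mem_ker

theorem abv_pb (em : L →+* K) (w : HeightOneSpectrum (𝓞 K)) {l : ℕ} (hl : l.Prime) (hw : Abv w l)
    (g : K ≃ₐ[F] K) : Abv (pb em w hl hw g) l := by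
  show (l : 𝓞 L) ∈ (pb em w hl hw g).asIdeal
  rw [mem_pb, map_natCast]
  have h2 : ((l : ℕ) : 𝓞 K ⧸ w.asIdeal) = Ideal.Quotient.mk w.asIdeal (l : 𝓞 K) := (map_natCast _ l).symm
  rw [h2, Ideal.Quotient.eq_zero_iff_mem]
  exact hw

/-- The norm of the prime below is `l` if the image is the prime field. -/
theorem absNorm_pb (em : L →+* K) (w : HeightOneSpectrum (𝓞 K)) {l : ℕ} (hl : l.Prime) (hw : Abv w l)
    (g : K ≃ₐ[F] K) (h : ∀ x, ph em w g x ^ l = ph em w g x) :
    Ideal.absNorm (pb em w hl hw g).asIdeal = l := by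
  refine Pool.Agent.Q149.ESM.absNorm_eq hl (abv_pb em w hl hw g) fun x => ?_
  rw [mem_pb, map_sub, map_pow, h, sub_self]

/-- Every prime above `l` is a prime below one of the `w p`. -/
theorem exists_pb [IsGalois ℚ K] (em : L →+* K) {l : ℕ} (hl : l.Prime)
    (u : HeightOneSpectrum (𝓞 L)) (hu : Abv u l) : ∃ v0 : HeightOneSpectrum (𝓞 F), Abv v0 l ∧
      ∀ w : HeightOneSpectrum (𝓞 K), Ov w v0 → ∀ hw : Abv w l, ∃ g : K ≃ₐ[F] K, u = pb em w hl hw g := by
  obtain ⟨W, hWl, hW⟩ : ∃ W : HeightOneSpectrum (𝓞 K), Abv W l ∧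
      ∀ x : 𝓞 L, x ∈ u.asIdeal ↔ RingOfIntegers.mapRingHom em x ∈ W.asIdeal := by
    let _ : Algebra L K := em.toAlgebra
    have hmax : u.asIdeal.IsMaximal := u.isMaximal
    obtain ⟨Q, hQ, hQ2⟩ := Ideal.exists_maximal_ideal_liesOver_of_isIntegral (S := 𝓞 K) u.asIdeal
    have hmem : ∀ x : 𝓞 L, x ∈ u.asIdeal ↔ RingOfIntegers.mapRingHom em x ∈ Q := fun x => by
      have h := hQ2.over
      rw [h]
      rfl
    have hl' : (l : 𝓞 K) ∈ Q := by
      have h := (hmem (l : 𝓞 L)).1 hu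
      rwa [map_natCast] at h
    have hne : Q ≠ ⊥ := by
      intro h
      rw [h, Ideal.mem_bot] at hl'
      exact hl.ne_zero (Nat.cast_eq_zero.1 hl')
    exact ⟨⟨Q, hQ.isPrime, hne⟩, hl', hmem⟩
  obtain ⟨v0, hv0⟩ := Pool.Agent.Q149.ESM.exists_blw (algebraMap F K) W l hl.ne_zero hWl
  refine ⟨v0, ?_, fun w hw hwl => ?_⟩
  · have h1 := (hv0 (l : 𝓞 F)).2 (by rw [map_natCast]; exact hWl)
    exact h1
  · obtain ⟨g0, hg0, hmv⟩ := Pool.Agent.Q149.ESM.trans_over (algebraMap F K) W w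
      (fun x => (hv0 x).symm.trans (hw x))
    obtain ⟨g, hg⟩ : ∃ g : K ≃ₐ[F] K, ∀ x, g x = g0 x :=
      ⟨AlgEquiv.ofRingEquiv (f := (g0 : K ≃+* K)) (fun y => hg0 y), fun x => rfl⟩
    refine ⟨g, HeightOneSpectrum.ext ?_⟩
    ext x
    have h1 := hmv (RingOfIntegers.mapRingHom em x)
      (RingOfIntegers.mapRingHom (g : K →+* K) (RingOfIntegers.mapRingHom em x)) (hg _)
    rw [hW, h1, mem_pb]
    exact Ideal.Quotient.eq_zero_iff_mem.symm

end

/-! ## The count -/

theorem n1f : S_EVX → S_RES → S_N1F := by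
  intro hEVX hRES F K _ _ _ _ _ _ V _ _ _ ι Lf _ _ em rp hrp l hl hsq P _ v w q φ hfr i
  classical
  have hrpinj : Function.Injective rp := by
    intro a b hab
    exact (hrp.orb (rp a)).unique ⟨1, one_smul _ _⟩ ⟨1, by rw [one_smul, hab]⟩
  have hιfin : Finite ι := Finite.of_injective rp hrpinj
  have hι := Fintype.ofFinite ι
  have hVfin := Fintype.ofFinite V
  obtain ⟨⟨ev, hev⟩, -⟩ := hEVX F K V ι Lf em rp hrp
  obtain ⟨n, ⟨bs⟩⟩ : ∃ n : ι → ℕ, Nonempty ((j : ι) → Module.Basis (Fin (n j)) ℤ (𝓞 (Lf j))) :=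
    ⟨fun j => Fintype.card (Module.Free.ChooseBasisIndex ℤ (𝓞 (Lf j))),
      ⟨fun j => (RingOfIntegers.basis (Lf j)).reindex (Fintype.equivFin _)⟩⟩
  obtain ⟨R, hRinj, hRim, hRrd, -⟩ := hRES F K V ι Lf em rp hrp ev hev n bs l hl hsq P v w q φ hfr
  have hNZ : NeZero l := ⟨hl.ne_zero⟩
  have hvl : ∀ p, Abv (v p) l := fun p => (hfr.abv (v p)).2 ⟨p, rfl⟩
  have hwl : ∀ p, Abv (w p) l := fun p => by
    have h1 := (hfr.ov p (l : 𝓞 F)).1 (hvl p)
    rw [map_natCast] at h1
    exact h1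
  -- the values
  have hevs : ∀ (x : (i : ι) → 𝓞 (Lf i)) (g : K ≃ₐ[F] K),
      ((ev x (g • rp i) : 𝓞 K) : K) = g (em i (x i : Lf i)) := by
    intro x g
    rw [hev.eqv, hev.val]
  have hval : ∀ (x : Vc n) (p : P) (g : K ≃ₐ[F] K),
      ph (em i) (w p) g (∑ j, x i j • bs i j) = R (rd n l x) p (g • rp i) := by
    intro x p g
    rw [hRrd]
    exact ph_mk (em i) (w p) g _ _ (hevs _ g)
  have hlift : ∀ y : Vm n l, ∃ x : Vc n, rd n l x = y := by
    intro y
    refine ⟨fun i j => ((y i j).val : ℤ), ?_⟩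
    ext i j
    simp [rd]
  have hphe : ∀ (p : P) (g : K ≃ₐ[F] K) (x : 𝓞 (Lf i)),
      ph (em i) (w p) g x = Ideal.Quotient.mk (w p).asIdeal (ev (Pi.single i x) (g • rp i)) := by
    intro p g x
    refine ph_mk (em i) (w p) g _ _ ?_
    rw [hevs, Pi.single_eq_same]
  -- the homomorphism depends on the point only
  have hdep : ∀ (p : P) (g g' : K ≃ₐ[F] K), g • rp i = g' • rp i →
      ph (em i) (w p) g = ph (em i) (w p) g' := by
    intro p g g' h
    ext x
    rw [hphe, hphe, h]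
  -- values at fixed points
  have hfix : ∀ (p : P) (g : K ≃ₐ[F] K), q p = l → φ p • (g • rp i) = g • rp i →
      ∀ x, ph (em i) (w p) g x ^ l = ph (em i) (w p) g x := by
    intro p g hq h x
    rw [hphe, ← map_pow]
    symm
    rw [Ideal.Quotient.eq]
    have h2 := hev.eqv (Pi.single i x) (φ p) (g • rp i)
    rw [h] at h2
    have h3 := hfr.fb p _ _ h2
    rw [hq] at h3
    exact h3
  -- residue fields
  have hch : ∀ p, CharP (𝓞 K ⧸ (w p).asIdeal) l := by
    intro p
    have := (w p).isPrime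
    rw [CharP.charP_iff_prime_eq_zero hl]
    have h3 : ((l : ℕ) : 𝓞 K ⧸ (w p).asIdeal) = Ideal.Quotient.mk (w p).asIdeal (l : 𝓞 K) :=
      (map_natCast _ l).symm
    rw [h3, Ideal.Quotient.eq_zero_iff_mem]
    exact hwl p
  -- fixed points from values
  have hfix2 : ∀ (p : P) (g : K ≃ₐ[F] K), q p = l →
      (∀ x, ph (em i) (w p) g x ^ l = ph (em i) (w p) g x) → φ p • (g • rp i) = g • rp i := by
    intro p g hq hpow
    by_contra hne
    have hwmax : (w p).asIdeal.IsMaximal := (w p).isMaximal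
    let _ : Field (𝓞 K ⧸ (w p).asIdeal) := Ideal.Quotient.field (w p).asIdeal
    have hfin : Finite (𝓞 K ⧸ (w p).asIdeal) := Ideal.finiteQuotientOfFreeOfNeBot (w p).asIdeal (w p).ne_bot
    have hchp := hch p
    obtain ⟨f, hf, hcd, hφ⟩ := hfr.ord p
    rw [hq] at hcd
    obtain ⟨c, hc1, hc2⟩ := ex_c (k := 𝓞 K ⧸ (w p).asIdeal) hl hf hcd hφ hne
    obtain ⟨C, hC1, hC2⟩ : ∃ C : (r : P) → V → 𝓞 K ⧸ (w r).asIdeal, C p = c ∧
        ∀ r, r ≠ p → C r = 0 :=
      ⟨Pi.single p c, Pi.single_eq_same _ _, fun r hr => Pi.single_eq_of_ne hr _⟩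
    obtain ⟨y, hy⟩ := (hRim C).2 (by
      intro r s
      by_cases hr : r = p
      · subst hr
        rw [hC1, hq]
        exact hc1 s
      · rw [hC2 r hr]
        have hqr : q r ≠ 0 := by
          rcases hfr.dich r with h | h
          · rw [h]
            exact hl.ne_zero
          · intro h0
            rw [h0] at h
            have := pow_pos hl.pos 2
            omega
        simp [hqr])
    obtain ⟨x, hx⟩ := hlift y
    have h1 := hpow (∑ j, x i j • bs i j)
    rw [hval, hx, hy, hC1] at h1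
    exact hc2 h1
  obtain ⟨Fx, hFx⟩ : ∃ Fx : P → Set V, ∀ p, Fx p = {s : V | (∃ g : K ≃ₐ[F] K, g • rp i = s) ∧ φ p • s = s} :=
    ⟨_, fun _ => rfl⟩
  have hFm : ∀ p s, s ∈ Fx p ↔ (∃ g : K ≃ₐ[F] K, g • rp i = s) ∧ φ p • s = s := by
    intro p s
    rw [hFx]
    exact Iff.rfl
  have hG1 : ∀ (p : P) (s : Fx p), ∃ g : K ≃ₐ[F] K, g • rp i = s.1 := fun p s => ((hFm p s.1).1 s.2).1
  choose G1 hG1 using hG1
  have hTn : ∀ (p : {p : P // q p = l}) (s : Fx p.1),
      Ideal.absNorm (pb (em i) (w p.1) hl (hwl p.1) (G1 p.1 s)).asIdeal = l := by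
    intro p s
    refine absNorm_pb (em i) (w p.1) hl (hwl p.1) (G1 p.1 s) (hfix p.1 (G1 p.1 s) p.2 ?_)
    rw [hG1]
    exact ((hFm p.1 s.1).1 s.2).2
  obtain ⟨T, hT⟩ : ∃ T : ((p : {p : P // q p = l}) × Fx p.1) →
      {v : HeightOneSpectrum (𝓞 (Lf i)) // Ideal.absNorm v.asIdeal = l},
      ∀ a, (T a).1 = pb (em i) (w a.1.1) hl (hwl a.1.1) (G1 a.1.1 a.2) :=
    ⟨fun a => ⟨pb (em i) (w a.1.1) hl (hwl a.1.1) (G1 a.1.1 a.2), hTn a.1 a.2⟩, fun _ => rfl⟩
  have hTb : Function.Bijective T := by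
    constructor
    · rintro ⟨⟨p, hp⟩, s⟩ ⟨⟨p', hp'⟩, s'⟩ hss
      by_contra hne
      have hne' : p = p' → s.1 ≠ s'.1 := by
        intro h h2
        subst h
        apply hne
        have h3 : s = s' := Subtype.ext h2
        rw [h3]
      obtain ⟨C, hC1, hC2⟩ : ∃ C : (r : P) → V → 𝓞 K ⧸ (w r).asIdeal, C p' = Pi.single s'.1 1 ∧
          ∀ r, r ≠ p' → C r = 0 :=
        ⟨Pi.single p' (Pi.single s'.1 1), Pi.single_eq_same _ _, fun r hr => Pi.single_eq_of_ne hr _⟩
      obtain ⟨y, hy⟩ := (hRim C).2 (by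
        intro r s
        by_cases hr : r = p'
        · subst hr
          rw [hC1, hp']
          have hs' := ((hFm r s'.1).1 s'.2).2
          by_cases h : s = s'.1
          · rw [h, hs', Pi.single_eq_same, one_pow]
          · have h1 : φ r • s ≠ s'.1 := by
              intro h2
              apply h
              have h3 : φ r • s = φ r • s'.1 := by rw [h2, hs']
              exact MulAction.injective (φ r) h3
            rw [Pi.single_eq_of_ne h1, Pi.single_eq_of_ne h, zero_pow hl.ne_zero]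
        · rw [hC2 r hr]
          have hqr : q r ≠ 0 := by
            rcases hfr.dich r with h | h
            · rw [h]
              exact hl.ne_zero
            · intro h0
              rw [h0] at h
              have := pow_pos hl.pos 2
              omega
          simp [hqr])
      obtain ⟨x, hx⟩ := hlift y
      have h1 := hval x p (G1 p s)
      have h2 := hval x p' (G1 p' s')
      rw [hG1, hx, hy] at h1
      rw [hG1, hx, hy, hC1, Pi.single_eq_same] at h2
      have h0 : C p s.1 = 0 := by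
        by_cases h : p = p'
        · have h5 := hne' h
          subst h
          rw [hC1, Pi.single_eq_of_ne h5]
        · rw [hC2 p h]
          rfl
      rw [h0] at h1
      have h3 : (∑ j, x i j • bs i j) ∈ (pb (em i) (w p) hl (hwl p) (G1 p s)).asIdeal :=
        (mem_pb _ _ _ _ _ _).2 h1
      have h4 : pb (em i) (w p) hl (hwl p) (G1 p s) = pb (em i) (w p') hl (hwl p') (G1 p' s') := by
        rw [← hT ⟨⟨p, hp⟩, s⟩, hss, hT]
      rw [h4, mem_pb, h2] at h3
      have hwp' := (w p').isPrime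
      exact one_ne_zero h3
    · rintro ⟨u, hu⟩
      have hlu : Abv u l := by
        have := Ideal.absNorm_mem u.asIdeal
        rwa [hu] at this
      obtain ⟨v0, hv0, hall⟩ := exists_pb (F := F) (em i) hl u hlu
      obtain ⟨p, hp⟩ := (hfr.abv v0).1 hv0
      have hov : Ov (w p) v0 := by
        rw [← hp]
        exact hfr.ov p
      obtain ⟨g, hg⟩ := hall (w p) hov (hwl p)
      have hpow : ∀ x, ph (em i) (w p) g x ^ l = ph (em i) (w p) g x := by
        intro x
        have humax : u.asIdeal.IsMaximal := u.isMaximal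
        let _ := Ideal.Quotient.field u.asIdeal
        have hufin : Finite (𝓞 (Lf i) ⧸ u.asIdeal) := Ideal.finiteQuotientOfFreeOfNeBot u.asIdeal u.ne_bot
        have huft := Fintype.ofFinite (𝓞 (Lf i) ⧸ u.asIdeal)
        have h1 : Fintype.card (𝓞 (Lf i) ⧸ u.asIdeal) = l := by
          rw [← Nat.card_eq_fintype_card, ← Submodule.cardQuot_apply, ← Ideal.absNorm_apply, hu]
        have h2 := FiniteField.pow_card (Ideal.Quotient.mk u.asIdeal x)
        rw [h1, ← map_pow, Ideal.Quotient.eq, hg, mem_pb, map_sub, map_pow, sub_eq_zero] at h2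
        exact h2
      have hq : q p = l := by
        rw [hfr.nq p]
        refine Pool.Agent.Q149.ESM.absNorm_eq hl (hvl p) fun x => ?_
        obtain ⟨y, hy⟩ : ∃ y : 𝓞 (Lf i), em i (y : Lf i) = algebraMap F K (x : F) := by
          obtain ⟨y, hy⟩ := (hrp.fix i (algebraMap F K (x : F))).1 (fun g _ => g.commutes _)
          have h2 : IsIntegral ℤ y := by
            have h3 : IsIntegral ℤ (em i y) := by
              rw [hy]
              exact (iO F K x).2
            exact (isIntegral_algHom_iff ((em i).toIntAlgHom) (em i).injective).1 h3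
          exact ⟨⟨y, h2⟩, hy⟩
        have h3 : ph (em i) (w p) g y = Ideal.Quotient.mk (w p).asIdeal (iO F K x) := by
          refine ph_mk (em i) (w p) g _ _ ?_
          rw [hy, g.commutes]
          rfl
        have h4 := hpow y
        rw [h3, ← map_pow, ← map_pow] at h4
        rw [hfr.ov p, map_sub]
        exact (Ideal.Quotient.eq).1 h4.symm
      have hFs := hfix2 p g hq hpow
      have hmem : g • rp i ∈ Fx p := (hFm p _).2 ⟨⟨g, rfl⟩, hFs⟩
      refine ⟨⟨⟨p, hq⟩, ⟨g • rp i, hmem⟩⟩, ?_⟩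
      apply Subtype.ext
      rw [hT]
      refine Eq.trans ?_ hg.symm
      apply HeightOneSpectrum.ext
      ext x
      rw [mem_pb, mem_pb, hdep p (G1 p ⟨g • rp i, hmem⟩) g (hG1 p ⟨g • rp i, hmem⟩)]
  have hcard := Nat.card_congr (Equiv.ofBijective T hTb)
  have hN : N1 (Lf i) l = Nat.card {v : HeightOneSpectrum (𝓞 (Lf i)) // Ideal.absNorm v.asIdeal = l} := rfl
  rw [hN, ← hcard, Nat.card_sigma]
  rw [Finset.sum_subtype (p := fun p => q p = l) (univ.filter (fun p => q p = l)) (fun p => by simp)]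
  refine sum_congr rfl fun p _ => ?_
  rw [← hFx p.1]
  exact Nat.card_coe_set_eq _

end Pool.Agent.Q68.ESN
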